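import Pool.Agent.J4H63.IS.Stm

set_option autoImplicit false

/-! Project IS (helper63), piece EQ1. -/

namespace Pool.Agent.J4H57.IS

open Finset Pool.Agent.J4H64.SS Pool.Agent.J4H95.SP Pool.Agent.J4H63.IS

/-- the rank determines the clause -/
theorem rk_inj {n : ℕ} {x : Cl n → Bool} {l : Fin n × Bool} {c c' : Cl n} (hc : x c = true)
    (hc' : x c' = true) (hl : l ∈ c.1) (hl' : l ∈ c'.1) (h : rk x l c = rk x l c') : c = c' := by
  have key : ∀ c c' : Cl n, x c = true → l ∈ c.1 → rk x l c = rk x l c' →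
      ¬ Fintype.equivFin (Cl n) c < Fintype.equivFin (Cl n) c' := by
    intro c c' hc hl h hlt
    have h1 : rk x l c < rk x l c' := by
      unfold rk
      apply card_lt_card
      rw [ssubset_iff_of_subset]
      · refine ⟨c, by simp [hc, hl, hlt], by simp⟩
      · intro d hd
        rw [mem_filter] at hd ⊢
        exact ⟨mem_univ _, hd.2.1, hd.2.2.1, hd.2.2.2.trans hlt⟩
    omega
  have h1 := key c c' hc hl h
  have h2 := key c' c hc' hl' h.symm
  exact (Fintype.equivFin (Cl n)).injective (le_antisymm (not_lt.1 h2) (not_lt.1 h1))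

theorem t_EQ1 : S_EQ1 := by
  intro n k hk x hx hsat
  obtain ⟨a, ha⟩ := hsat
  have hemp : x ⟨∅, by simp⟩ = false := by
    cases h : x ⟨∅, by simp⟩ with
    | false => rfl
    | true =>
      obtain ⟨l, hl, -⟩ := ha _ h
      exact absurd hl (notMem_empty l)
  have hP : ∀ (l : Fin n × Bool) (s : Fin k), ∃ p : Fin 3, ∀ (c : Cl n) (h : c.1.Nonempty),
      x c = true → el c h 0 = l → rk x l c = s.1 → a (el c h p).1 = (el c h p).2 := by
    intro l s
    by_cases hex : ∃ (c : Cl n) (h : c.1.Nonempty), x c = true ∧ el c h 0 = l ∧ rk x l c = s.1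
    · obtain ⟨c, h, hc, h0, hr⟩ := hex
      obtain ⟨l', hl', hal⟩ := ha c hc
      obtain ⟨p, hp⟩ := (el_spec c h l').1 hl'
      refine ⟨p, fun c' h' hc' h0' hr' => ?_⟩
      have h1 : l ∈ c.1 := (el_spec c h l).2 ⟨0, h0⟩
      have h2 : l ∈ c'.1 := (el_spec c' h' l).2 ⟨0, h0'⟩
      have h3 : c = c' := rk_inj hc hc' h1 h2 (hr.trans hr'.symm)
      subst h3
      rw [hp]; exact hal
    · exact ⟨0, fun c h hc h0 hr => absurd ⟨c, h, hc, h0, hr⟩ hex⟩
  choose P hP using hP
  obtain ⟨f, hf1, hf2⟩ : ∃ f : (Fin n × Fin (6 * k)) ⊕ ((Fin n × Bool) × Fin k) → Vt n k,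
      (∀ v i, f (Sum.inl (v, i)) = Sum.inl (v, i, a v)) ∧
        ∀ l s, f (Sum.inr (l, s)) = Sum.inr (l, s, P l s) :=
    ⟨Sum.elim (fun y => Sum.inl (y.1, y.2, a y.1)) (fun y => Sum.inr (y.1, y.2, P y.1 y.2)),
      fun _ _ => rfl, fun _ _ => rfl⟩
  have hinj : Function.Injective f := by
    rintro (⟨v, i⟩ | ⟨l, s⟩) (⟨v', i'⟩ | ⟨l', s'⟩) h
    · rw [hf1, hf1] at h
      simp only [Sum.inl.injEq, Prod.mk.injEq] at h
      rw [h.1, h.2.1]
    · rw [hf1, hf2] at h
      exact absurd h (by simp)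
    · rw [hf1, hf2] at h
      exact absurd h (by simp)
    · rw [hf2, hf2] at h
      simp only [Sum.inr.injEq, Prod.mk.injEq] at h
      rw [h.1, h.2.1]
  have hJ : ∀ l s v i, ¬ Jn k hk x l s (P l s) v i (a v) := by
    rintro l s v i ⟨c, h, hc, h0, hr, hp, -⟩
    have h1 := hP l s c h hc h0 hr
    rw [hp] at h1
    simp only at h1
    revert h1
    cases a v <;> simp
  refine ⟨univ.image f, ?_, ?_⟩
  · rw [card_image_of_injective _ hinj, card_univ]
    simp only [Fintype.card_sum, Fintype.card_prod, Fintype.card_fin, Fintype.card_bool]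
    apply le_of_eq
    ring
  · intro u hu w hw
    rw [mem_image] at hu hw
    obtain ⟨y, -, rfl⟩ := hu
    obtain ⟨z, -, rfl⟩ := hw
    rcases y with ⟨v, i⟩ | ⟨l, s⟩ <;> rcases z with ⟨v', i'⟩ | ⟨l', s'⟩
    · rw [hf1, hf1]
      rintro ⟨rfl, h | h⟩
      · rw [hemp] at h
        exact Bool.false_ne_true h.1
      · rcases h.2 with h | h | h
        · exact h.2 rfl
        · rw [h.1] at h
          exact Bool.false_ne_true h.2.1
        · rw [h.1] at h
          exact Bool.false_ne_true h.2.1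
    · rw [hf1, hf2]
      rintro ⟨-, h⟩
      exact hJ _ _ _ _ h
    · rw [hf1, hf2]
      rintro ⟨-, h⟩
      exact hJ _ _ _ _ h
    · rw [hf2, hf2]
      rintro ⟨rfl, rfl, h⟩
      exact h rfl

end Pool.Agent.J4H57.IS
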