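import Pool.Agent.J4H63.IS.Stm

set_option autoImplicit false

/-! Project IS (helper63), piece EQ2. -/

namespace Pool.Agent.J4H57.IS

open Finset Pool.Agent.J4H64.SS Pool.Agent.J4H95.SP Pool.Agent.J4H63.IS

/-- the pair or triangle of a vertex -/
def pj {n k : ℕ} : Vt n k → (Fin n × Fin (6 * k)) ⊕ ((Fin n × Bool) × Fin k)
  | Sum.inl (v, i, _) => Sum.inl (v, i)
  | Sum.inr (l, s, _) => Sum.inr (l, s)

/-- the complete graph of a vertex, if the empty clause is present -/
def pk {n k : ℕ} : Vt n k → (Fin n × Fin (3 * k)) ⊕ ((Fin n × Bool) × Fin k)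
  | Sum.inl (v, i, _) => Sum.inl (v, ⟨i.1 / 2, by have := i.2; omega⟩)
  | Sum.inr (l, s, _) => Sum.inr (l, s)

/-- a literal of a clause of `x` has rank less than `k` -/
theorem rk_lt {n k : ℕ} {x : Cl n → Bool} (hx : Sparse k x) {c : Cl n} (hc : x c = true)
    {l : Fin n × Bool} (hl : l ∈ c.1) : rk x l c < k := by
  refine lt_of_lt_of_le (card_lt_card ?_) (hx l)
  rw [ssubset_iff_of_subset]
  · refine ⟨c, by simp [hc, hl], by simp⟩
  · intro c' hc'
    rw [mem_filter] at hc' ⊢
    exact ⟨mem_univ _, hc'.2.1, hc'.2.2.1⟩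

theorem t_EQ2 : S_EQ2 := by
  intro n k hk x hn hx
  rintro ⟨S, hcard, hS⟩
  by_cases hemp : x ⟨∅, by simp⟩ = true
  · exfalso
    have hinj : Set.InjOn (pk (n := n) (k := k)) (S : Set (Vt n k)) := by
      intro u hu w hw huw
      by_contra hne
      apply hS u hu w hw
      rcases u with ⟨v, i, b⟩ | ⟨l, s, p⟩ <;> rcases w with ⟨v', i', b'⟩ | ⟨l', s', p'⟩
      · simp only [pk, Sum.inl.injEq, Prod.mk.injEq, Fin.mk.injEq] at huw
        simp only [R]
        refine ⟨huw.1, Or.inl ⟨hemp, huw.2, fun h => hne ?_⟩⟩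
        rw [Prod.mk.injEq] at h
        rw [huw.1, h.1, h.2]
      · simp [pk] at huw
      · simp [pk] at huw
      · simp only [pk, Sum.inr.injEq, Prod.mk.injEq] at huw
        simp only [R]
        refine ⟨huw.1, huw.2, fun h => hne ?_⟩
        rw [huw.1, huw.2, h]
    have h1 := card_le_card_of_injOn (t := univ) pk (fun u _ => mem_coe.2 (mem_univ _)) hinj
    rw [card_univ] at h1
    simp only [Fintype.card_sum, Fintype.card_prod, Fintype.card_fin, Fintype.card_bool] at h1
    have h2 : n * (8 * k) ≤ n * (3 * k) + n * 2 * k := hcard.trans h1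
    have h3 : 1 ≤ n * k := Nat.mul_pos hn hk
    nlinarith
  · have hemp' : x ⟨∅, by simp⟩ = false := by
      cases h : x ⟨∅, by simp⟩ with
      | false => rfl
      | true => exact absurd h hemp
    have hinj : Set.InjOn (pj (n := n) (k := k)) (S : Set (Vt n k)) := by
      intro u hu w hw huw
      by_contra hne
      apply hS u hu w hw
      rcases u with ⟨v, i, b⟩ | ⟨l, s, p⟩ <;> rcases w with ⟨v', i', b'⟩ | ⟨l', s', p'⟩
      · simp only [pj, Sum.inl.injEq, Prod.mk.injEq] at huw
        simp only [R]
        refine ⟨huw.1, Or.inr ⟨hemp', Or.inl ⟨huw.2, fun h => hne ?_⟩⟩⟩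
        rw [huw.1, huw.2, h]
      · simp [pj] at huw
      · simp [pj] at huw
      · simp only [pj, Sum.inr.injEq, Prod.mk.injEq] at huw
        simp only [R]
        refine ⟨huw.1, huw.2, fun h => hne ?_⟩
        rw [huw.1, huw.2, h]
    have hsurj : ∀ y, ∃ u ∈ S, pj u = y := by
      have h1 : S.image pj = univ := by
        apply eq_univ_of_card
        rw [card_image_of_injOn hinj]
        apply le_antisymm
        · have := card_le_card_of_injOn (t := univ) pj (fun u _ => mem_coe.2 (mem_univ _)) hinj
          rwa [card_univ] at this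
        · refine le_trans (le_of_eq ?_) hcard
          simp only [Fintype.card_sum, Fintype.card_prod, Fintype.card_fin, Fintype.card_bool]
          ring
      intro y
      have := mem_univ y
      rw [← h1, mem_image] at this
      exact this
    -- the assignment
    have hb : ∀ (v : Fin n) (i : Fin (6 * k)), ∃ b : Bool, (Sum.inl (v, i, b) : Vt n k) ∈ S := by
      intro v i
      obtain ⟨u, hu, hpu⟩ := hsurj (Sum.inl (v, i))
      rcases u with ⟨v', i', b'⟩ | ⟨l', s', p'⟩
      · simp only [pj, Sum.inl.injEq, Prod.mk.injEq] at hpu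
        rw [hpu.1, hpu.2] at hu
        exact ⟨b', hu⟩
      · simp [pj] at hpu
    choose β hβ using hb
    have huniq : ∀ v i b, (Sum.inl (v, i, b) : Vt n k) ∈ S → b = β v i := by
      intro v i b h
      have := hinj h (hβ v i) (by simp [pj])
      simpa using this
    have hstep : ∀ v (i : Fin (6 * k)), β v i = false → β v (nx i) = false := by
      intro v i h
      by_contra hne
      rw [Bool.not_eq_false] at hne
      have h1 := hβ v i
      have h2 := hβ v (nx i)
      rw [h] at h1
      rw [hne] at h2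
      apply hS _ h1 _ h2
      exact ⟨rfl, Or.inr ⟨hemp', Or.inr (Or.inl ⟨rfl, rfl, rfl⟩)⟩⟩
    have hiter : ∀ v (i : Fin (6 * k)) (t : ℕ), β v i = false →
        ∀ j : Fin (6 * k), j.1 = (i.1 + t) % (6 * k) → β v j = false := by
      intro v i t hi
      induction t with
      | zero =>
        intro j hj
        have : j = i := by
          apply Fin.ext
          rw [hj, add_zero, Nat.mod_eq_of_lt i.2]
        rw [this]; exact hi
      | succ t ih =>
        intro j hj
        have h6 : 0 < 6 * k := by omega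
        have h1 := ih ⟨(i.1 + t) % (6 * k), Nat.mod_lt _ h6⟩ rfl
        have h2 := hstep v _ h1
        have h3 : j = nx ⟨(i.1 + t) % (6 * k), Nat.mod_lt _ h6⟩ := by
          apply Fin.ext
          simp only [nx]
          rw [hj, Nat.mod_add_mod]
          rfl
        rw [h3]; exact h2
    have hconst : ∀ v (i j : Fin (6 * k)), β v i = false → β v j = false := by
      intro v i j hi
      apply hiter v i (j.1 + 6 * k - i.1) hi j
      have h1 := i.2
      have h2 := j.2
      have h3 : i.1 + (j.1 + 6 * k - i.1) = j.1 + 6 * k := by omega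
      rw [h3, Nat.add_mod_right, Nat.mod_eq_of_lt h2]
    have h6 : 0 < 6 * k := by omega
    have hall : ∀ v (i : Fin (6 * k)), β v i = β v ⟨0, h6⟩ := by
      intro v i
      cases h : β v i with
      | false => exact (hconst v i _ h).symm
      | true =>
        cases h' : β v ⟨0, h6⟩ with
        | true => rfl
        | false => rw [hconst v _ i h'] at h; exact h.symm
    refine ⟨fun v => β v ⟨0, h6⟩, fun c hc => ?_⟩
    have hne : c.1.Nonempty := by
      rw [nonempty_iff_ne_empty]
      intro h
      have h1 : c = ⟨∅, by simp⟩ := Subtype.ext h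
      rw [h1, hemp'] at hc
      exact Bool.false_ne_true hc
    have hl0 : el c hne 0 ∈ c.1 := (el_spec c hne _).2 ⟨0, rfl⟩
    obtain ⟨u, hu, hpu⟩ := hsurj (Sum.inr (el c hne 0, ⟨rk x (el c hne 0) c, rk_lt hx hc hl0⟩))
    rcases u with ⟨v', i', b'⟩ | ⟨l', s', p⟩
    · simp [pj] at hpu
    · simp only [pj, Sum.inr.injEq, Prod.mk.injEq] at hpu
      rw [hpu.1, hpu.2] at hu
      refine ⟨el c hne p, (el_spec c hne _).2 ⟨p, rfl⟩, ?_⟩
      obtain ⟨v, b, hvb⟩ : ∃ v b, el c hne p = (v, b) := ⟨_, _, rfl⟩
      rw [hvb]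
      simp only
      by_contra hab
      have h1 : β v (ix k hk (rk x (v, b) c) p b) = !b := by
        rw [hall]
        revert hab
        cases β v ⟨0, h6⟩ <;> cases b <;> simp
      have h2 := hβ v (ix k hk (rk x (v, b) c) p b)
      rw [h1] at h2
      apply hS _ h2 _ hu
      simp only [R]
      refine ⟨hemp', c, hne, hc, rfl, rfl, ?_, ?_⟩
      · rw [hvb, Bool.not_not]
      · rw [Bool.not_not]

end Pool.Agent.J4H57.IS
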